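import Pool.Agent.Q5.Friendly.Final

set_option autoImplicit false

universe u

namespace Pool.Agent.Results.MP_97603a_co.AllPairs

open Q5.Friendly

/-- `U` and its complement form a friendly partition of the digraph `G`: both parts are non-empty
and every vertex has an out-neighbour in its own part. -/
def Friendly {V : Type u} (G : Digraph V) (U : Set V) : Prop :=
  U.Nonempty ∧ Uᶜ.Nonempty ∧ (∀ x ∈ U, ∃ y ∈ U, G.Adj x y) ∧ (∀ x ∈ Uᶜ, ∃ y ∈ Uᶜ, G.Adj x y)

/-- The set `S` meets both parts of some friendly partition. -/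
def Separable {V : Type u} (G : Digraph V) (S : Set V) : Prop :=
  ∃ U : Set V, Friendly G U ∧ (U ∩ S).Nonempty ∧ (Uᶜ ∩ S).Nonempty

/-- Every vertex has at least `d` out-neighbours. -/
def MinOut {V : Type u} (G : Digraph V) (d : ℕ) : Prop :=
  ∀ x : V, d ≤ {y : V | G.Adj x y}.ncard

theorem extend {V : Type u} [Finite V] (G : Digraph V) (h3 : MinOut G 3) (x y : V)
    (U W : Set V) (hd : Disjoint U W) (hx : x ∈ U) (hy : y ∈ W)
    (hU : ∀ z ∈ U, ∃ w ∈ U, G.Adj z w) (hW : ∀ z ∈ W, ∃ w ∈ W, G.Adj z w) :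
    ∃ U' : Set V, Friendly G U' ∧ x ∈ U' ∧ y ∉ U' := by
  classical
  -- the union of all good sets disjoint from `W`
  set A : Set V := ⋃₀ {B : Set V | Disjoint B W ∧ ∀ z ∈ B, ∃ w ∈ B, G.Adj z w} with hA
  have hUA : U ⊆ A := Set.subset_sUnion_of_mem ⟨hd, hU⟩
  have hAW : Disjoint A W := by
    rw [hA, Set.disjoint_sUnion_left]
    exact fun B hB => hB.1
  have hAG : ∀ z ∈ A, ∃ w ∈ A, G.Adj z w := by
    rintro z ⟨B, hB, hz⟩
    obtain ⟨w, hw, hzw⟩ := hB.2 z hz
    exact ⟨w, ⟨B, hB, hw⟩, hzw⟩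
  have hyA : y ∉ A := fun h => Set.disjoint_left.1 hAW h hy
  refine ⟨A, ⟨⟨x, hUA hx⟩, ⟨y, hyA⟩, hAG, ?_⟩, hUA hx, hyA⟩
  intro z hz
  by_cases hzW : z ∈ W
  · obtain ⟨w, hw, hzw⟩ := hW z hzW
    exact ⟨w, fun h => Set.disjoint_left.1 hAW h hw, hzw⟩
  · by_contra hcon
    push Not at hcon
    have hne : {w : V | G.Adj z w}.Nonempty := by
      rw [← Set.ncard_pos (Set.toFinite _)]
      have := h3 z
      omega
    obtain ⟨w, hw⟩ := hne
    have hwA : w ∈ A := by
      by_contra h
      exact hcon w h hw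
    apply hz
    refine ⟨insert z A, ⟨?_, ?_⟩, Set.mem_insert _ _⟩
    · rw [Set.disjoint_left]
      rintro p (rfl | hp) hpW
      · exact hzW hpW
      · exact Set.disjoint_left.1 hAW hp hpW
    · rintro p (rfl | hp)
      · exact ⟨w, Set.mem_insert_of_mem _ hwA, hw⟩
      · obtain ⟨q, hq, hpq⟩ := hAG p hp
        exact ⟨q, Set.mem_insert_of_mem _ hq, hpq⟩

theorem pair {V : Type u} [Finite V] (G : Digraph V) (h3 : MinOut G 3) (x y : V) (hxy : x ≠ y) :
    ∃ U : Set V, Friendly G U ∧ x ∈ U ∧ y ∉ U := by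
  classical
  have := Fintype.ofFinite V
  set N0 : V → Finset V := fun z => Finset.univ.filter (fun w => G.Adj z w) with hN0
  have hc : ∀ z, 3 ≤ (N0 z).card := by
    intro z
    have h := h3 z
    rw [Set.ncard_eq_toFinset_card' {w : V | G.Adj z w}] at h
    have : ({w : V | G.Adj z w} : Set V).toFinset = N0 z := by
      ext w; simp [hN0]
    rwa [this] at h
  have hI : Inst (Finset.univ : Finset V) (addArcs N0 x y) id x y := by
    have hcard : ∀ z, 3 ≤ (addArcs N0 x y z).card := fun z =>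
      (hc z).trans (Finset.card_le_card (subset_addArcs _ _ _ _))
    refine ⟨Finset.mem_univ _, Finset.mem_univ _, hxy, ?_, ?_, fun _ _ => Finset.subset_univ _,
      fun z _ => Or.inr (Or.inl (hcard z)), ?_⟩
    · simp [addArcs]
    · simp only [addArcs, if_neg hxy.symm, if_true]; exact Finset.mem_insert_self _ _
    · intro z _ z' _ _ _ h _ _
      have := hcard z
      omega
  obtain ⟨U, W, _, _, hd, hx, hy, hU, hW⟩ := sep_add hI.sep
  refine extend G h3 x y (U : Set V) (W : Set V) ?_ hx hy ?_ ?_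
  · rw [Finset.disjoint_coe]; exact hd
  · intro z hz
    obtain ⟨w, hw, hwU⟩ := hU z hz
    exact ⟨w, hwU, (Finset.mem_filter.1 hw).2⟩
  · intro z hz
    obtain ⟨w, hw, hwU⟩ := hW z hz
    exact ⟨w, hwU, (Finset.mem_filter.1 hw).2⟩

theorem Friendly.compl {V : Type u} {G : Digraph V} {U : Set V} (h : Friendly G U) :
    Friendly G Uᶜ := by
  obtain ⟨h1, h2, h3, h4⟩ := h
  exact ⟨h2, by rwa [compl_compl], h4, by rwa [compl_compl]⟩

/-- (1) In every finite digraph (loops allowed) in which every vertex has at least three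
out-neighbours, every two distinct vertices are separated by a friendly partition (Question 2).
(2) Hence, for all `d ≥ 3` and `s ≥ 2`, every set of `s` vertices of every finite digraph with
minimum out-degree at least `d` is separable; in particular there are `d` and `s` as in
Question 1.
(3) The number of friendly partitions of a digraph on `n` vertices with minimum out-degree at
least three (each counted by its part which contains a fixed vertex) is at least `log₂ n`. -/
theorem result :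
    (∀ (V : Type u) [Finite V] (G : Digraph V), MinOut G 3 →
      ∀ x y : V, x ≠ y → Separable G {x, y}) ∧
    (∀ d s : ℕ, 3 ≤ d → 2 ≤ s → ∀ (V : Type u) [Finite V] (G : Digraph V), MinOut G d →
      ∀ S : Set V, S.ncard = s → Separable G S) ∧
    (∃ d s : ℕ, ∀ (V : Type u) [Finite V] (G : Digraph V), (∀ x, ¬ G.Adj x x) → MinOut G d →
      ∀ S : Set V, S.ncard = s → Separable G S) ∧
    (∀ (V : Type u) [Finite V] (G : Digraph V), MinOut G 3 →
      ∀ x : V, Nat.card V ≤ 2 ^ {U : Set V | Friendly G U ∧ x ∈ U}.ncard) := by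
  have h1 : ∀ (V : Type u) [Finite V] (G : Digraph V), MinOut G 3 →
      ∀ S : Set V, 2 ≤ S.ncard → Separable G S := by
    intro V _ G h3 S hS
    obtain ⟨x, hx, y, hy, hxy⟩ := Set.one_lt_ncard_iff_nontrivial.1 (by omega : 1 < S.ncard)
    obtain ⟨U, hU, hxU, hyU⟩ := pair G h3 x y hxy
    exact ⟨U, hU, ⟨x, hxU, hx⟩, ⟨y, hyU, hy⟩⟩
  have h2 : ∀ d s : ℕ, 3 ≤ d → 2 ≤ s → ∀ (V : Type u) [Finite V] (G : Digraph V), MinOut G d →
      ∀ S : Set V, S.ncard = s → Separable G S := by
    intro d s hd hs V _ G hG S hS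
    exact h1 V G (fun x => hd.trans (hG x)) S (by omega)
  refine ⟨fun V _ G h3 x y hxy => h1 V G h3 _ (by rw [Set.ncard_pair hxy]), h2,
    ⟨3, 2, fun V _ G _ => h2 3 2 le_rfl le_rfl V G⟩, ?_⟩
  intro V _ G h3 x
  have hfin : Finite {U : Set V // Friendly G U ∧ x ∈ U} := inferInstance
  let F : V → Set {U : Set V // Friendly G U ∧ x ∈ U} := fun z => {U | z ∈ U.1}
  have hF : Function.Injective F := by
    intro a b hab
    by_contra hne
    obtain ⟨U, hU, haU, hbU⟩ := pair G h3 a b hne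
    by_cases hx : x ∈ U
    · have h4 : (⟨U, hU, hx⟩ : {U : Set V // Friendly G U ∧ x ∈ U}) ∈ F a := haU
      rw [hab] at h4
      exact hbU h4
    · have h4 : (⟨Uᶜ, hU.compl, hx⟩ : {U : Set V // Friendly G U ∧ x ∈ U}) ∈ F b := hbU
      rw [← hab] at h4
      exact h4 haU
  have h5 := Nat.card_le_card_of_injective F hF
  have h6 : Nat.card (Set {U : Set V // Friendly G U ∧ x ∈ U}) =
      2 ^ Nat.card {U : Set V // Friendly G U ∧ x ∈ U} := by
    have := Fintype.ofFinite {U : Set V // Friendly G U ∧ x ∈ U}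
    rw [Nat.card_eq_fintype_card, Fintype.card_set, Nat.card_eq_fintype_card]
  rw [h6] at h5
  exact h5

end Pool.Agent.Results.MP_97603a_co.AllPairs
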